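import Pool.Agent.H67.HC.GSC
import Pool.Agent.H4.HH.GFS

/-!
# Row GFC of hcz_modules: the derivatives of the rescaled function of the sum over `γ`
-/

set_option autoImplicit false

open Complex Filter Topology MeasureTheory
open scoped ContDiff Nat

namespace Pool.Agent.H67.HC

open Pool.Agent.H33.HC Pool.Agent.H33.HH Pool.Agent.H4.HH

noncomputable section

/-- a smooth continuation of the logarithm -/
theorem exists_log {a : ℝ} (ha : 0 < a) :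
    ∃ l : ℝ → ℝ, ContDiff ℝ ∞ l ∧ ∀ v, a ≤ v → l v = Real.log v := by
  refine ⟨fun v => Real.smoothTransition (2 / a * v - 1) * Real.log v, ?_, ?_⟩
  · rw [contDiff_iff_contDiffAt]
    intro v
    rcases lt_or_ge v (a / 2) with h | h
    · have e : (fun v => Real.smoothTransition (2 / a * v - 1) * Real.log v) =ᶠ[𝓝 v]
          fun _ => 0 := by
        filter_upwards [Iio_mem_nhds h] with w hw
        have hw' : w < a / 2 := hw
        have h1 : 2 / a * w - 1 ≤ 0 := by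
          have h2 : 2 / a * w ≤ 2 / a * (a / 2) := by gcongr
          have e2 : 2 / a * (a / 2) = 1 := by field_simp
          linarith
        rw [Real.smoothTransition.zero_of_nonpos h1, zero_mul]
      exact contDiffAt_const.congr_of_eventuallyEq e
    · have hv : v ≠ 0 := by
        have : 0 < v := by linarith
        exact this.ne'
      have h1 : ContDiff ℝ ∞ fun v : ℝ => 2 / a * v - 1 :=
        (contDiff_const.mul contDiff_id).sub contDiff_const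
      exact (Real.smoothTransition.contDiff.comp h1).contDiffAt.mul (Real.contDiffAt_log.2 hv)
  · intro v hv
    have h1 : 1 ≤ 2 / a * v - 1 := by
      have h2 : 2 / a * a ≤ 2 / a * v := by gcongr
      have e2 : 2 / a * a = 2 := by field_simp
      linarith
    simp only
    rw [Real.smoothTransition.one_of_one_le h1, one_mul]

/-- bounds of derivatives on the unit ball, by compactness -/
theorem cpb1 (F : (ℝ × ℝ) × ℂ → ℝ) (S : Set (ℝ × ℝ)) (hF : ContDiff ℝ ∞ F) (hS : IsCompact S)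
    (k : ℕ) : ∃ C : ℝ, ∀ p ∈ S, ∀ z : ℂ, ‖z‖ ≤ 1 →
      ‖iteratedFDeriv ℝ k (fun z => F (p, z)) z‖ ≤ C := by
  have hc : Continuous (fun x => iteratedFDeriv ℝ k F x) :=
    hF.continuous_iteratedFDeriv (by exact_mod_cast le_top)
  obtain ⟨C, hC⟩ := (hS.prod (isCompact_closedBall (0 : ℂ) 1)).exists_bound_of_continuousOn
    (f := fun x => iteratedFDeriv ℝ k F x) hc.continuousOn
  refine ⟨max C 0, fun p hp z hz => ?_⟩
  have e : (fun z => F (p, z)) =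
      (fun w => F ((p, (0 : ℂ)) + w)) ∘ (ContinuousLinearMap.inr ℝ (ℝ × ℝ) ℂ) := by
    funext z
    simp
  have hF' : ContDiff ℝ ∞ (fun w => F ((p, (0 : ℂ)) + w)) :=
    hF.comp (contDiff_const.add contDiff_id)
  rw [e, ContinuousLinearMap.iteratedFDeriv_comp_right _ hF' z (by exact_mod_cast le_top),
    iteratedFDeriv_comp_add_left]
  refine (ContinuousMultilinearMap.norm_compContinuousLinearMap_le _ _).trans ?_
  have h1 : ‖iteratedFDeriv ℝ k F ((p, (0 : ℂ)) + ContinuousLinearMap.inr ℝ (ℝ × ℝ) ℂ z)‖ ≤ C := by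
    have := hC (p, z) ⟨hp, by simpa using hz⟩
    simpa using this
  have h2 : ∏ _i : Fin k, ‖ContinuousLinearMap.inr ℝ (ℝ × ℝ) ℂ‖ ≤ 1 := by
    apply Finset.prod_le_one
    · intro i _; positivity
    · intro i _; exact ContinuousLinearMap.norm_inr_le_one ℝ _ _
  calc _ ≤ C * 1 := mul_le_mul h1 h2 (by positivity) ((norm_nonneg _).trans h1)
    _ ≤ max C 0 := by rw [mul_one]; exact le_max_left _ _

/-- one bound for all the derivatives up to `k` -/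
theorem unif (k : ℕ) (P : ℕ → ℝ → Prop) (hm : ∀ i a b, a ≤ b → P i a → P i b)
    (h : ∀ i, ∃ C, P i C) : ∃ C : ℝ, 1 ≤ C ∧ ∀ i ≤ k, P i C := by
  choose C hC using h
  refine ⟨1 + ∑ i ∈ Finset.range (k + 1), |C i|, ?_, fun i hi => hm i _ _ ?_ (hC i)⟩
  · have := Finset.sum_nonneg (s := Finset.range (k + 1)) (f := fun i => |C i|)
      fun i _ => abs_nonneg _
    linarith
  · have h1 : |C i| ≤ ∑ i ∈ Finset.range (k + 1), |C i| :=
      Finset.single_le_sum (f := fun i => |C i|) (fun i _ => abs_nonneg _)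
        (Finset.mem_range.2 (by omega))
    have := le_abs_self (C i)
    linarith

theorem cpb (F : (ℝ × ℝ) × ℂ → ℝ) (S : Set (ℝ × ℝ)) (hF : ContDiff ℝ ∞ F) (hS : IsCompact S)
    (k : ℕ) : ∃ C : ℝ, 1 ≤ C ∧ ∀ i ≤ k, ∀ p ∈ S, ∀ z : ℂ, ‖z‖ ≤ 1 →
      ‖iteratedFDeriv ℝ i (fun z => F (p, z)) z‖ ≤ C :=
  unif k (fun i C => ∀ p ∈ S, ∀ z : ℂ, ‖z‖ ≤ 1 → ‖iteratedFDeriv ℝ i (fun z => F (p, z)) z‖ ≤ C)
    (fun _ _ _ hab h p hp z hz => (h p hp z hz).trans hab) (cpb1 F S hF hS)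

theorem it_exp (c : ℂ) (k : ℕ) :
    iteratedDeriv k (fun x : ℝ => cexp (c * x)) = fun x : ℝ => c ^ k * cexp (c * x) := by
  induction k with
  | zero => simp
  | succ k ih =>
    rw [iteratedDeriv_succ, ih]
    funext x
    have h1 : HasDerivAt (fun x : ℝ => c * (x : ℂ)) c x := by
      simpa using (Complex.ofRealCLM.hasDerivAt (x := x)).const_mul c
    have h2 := (h1.cexp.const_mul (c ^ k)).deriv
    rw [h2]
    ring

theorem smooth_exp (c : ℂ) : ContDiff ℝ ∞ (fun x : ℝ => cexp (c * x)) := by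
  have h1 : ContDiff ℝ ∞ (fun x : ℝ => c * (x : ℂ)) :=
    contDiff_const.mul Complex.ofRealCLM.contDiff
  exact h1.cexp

/-- the derivatives of a product with an exponential function -/
theorem mulexp (k : ℕ) {P : ℂ → ℂ} {L : ℂ → ℝ} {c : ℂ} {z : ℂ} {a D : ℝ}
    (hP : ContDiff ℝ ∞ P) (hL : ContDiff ℝ ∞ L) (ha : ∀ i ≤ k, ‖iteratedFDeriv ℝ i P z‖ ≤ a)
    (hD : 1 ≤ D) (hLD : ∀ i ≤ k, ‖iteratedFDeriv ℝ i L z‖ ≤ D) (hc : |c.re| ≤ 1) :
    ‖iteratedFDeriv ℝ k (fun z => P z * cexp (c * L z)) z‖ ≤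
      2 ^ k * a * (k ! * (Real.exp D * (1 + ‖c‖) ^ k) * D ^ k) := by
  have hE : ContDiff ℝ ∞ ((fun x : ℝ => cexp (c * x)) ∘ L) := (smooth_exp c).comp hL
  have ha0 : 0 ≤ a := (norm_nonneg _).trans (ha 0 (Nat.zero_le _))
  have hc1 : 1 ≤ 1 + ‖c‖ := by linarith [norm_nonneg c]
  have hL0 : |L z| ≤ D := by
    have := hLD 0 (Nat.zero_le _)
    rwa [norm_iteratedFDeriv_zero, Real.norm_eq_abs] at this
  have hj : ∀ j ≤ k, ‖iteratedFDeriv ℝ j ((fun x : ℝ => cexp (c * x)) ∘ L) z‖ ≤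
      k ! * (Real.exp D * (1 + ‖c‖) ^ k) * D ^ k := by
    intro j hj
    have h1 := norm_iteratedFDeriv_comp_le (n := j) (smooth_exp c) hL
      (by exact_mod_cast le_top) z (C := Real.exp D * (1 + ‖c‖) ^ k) (D := D) ?_ ?_
    · refine h1.trans ?_
      have h2 : (j ! : ℝ) ≤ k ! := by exact_mod_cast Nat.factorial_le hj
      have h3 : D ^ j ≤ D ^ k := pow_le_pow_right₀ hD hj
      have h4 : 0 ≤ Real.exp D * (1 + ‖c‖) ^ k := by positivity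
      exact mul_le_mul (mul_le_mul_of_nonneg_right h2 h4) h3 (by positivity) (by positivity)
    · intro i hi
      rw [norm_iteratedFDeriv_eq_norm_iteratedDeriv, it_exp, norm_mul, norm_pow, Complex.norm_exp]
      have h2 : (c * ((L z : ℝ) : ℂ)).re ≤ D := by
        rw [Complex.re_mul_ofReal]
        have h3 : |c.re * L z| ≤ 1 * D := by
          rw [abs_mul]
          exact mul_le_mul hc hL0 (abs_nonneg _) zero_le_one
        linarith [le_abs_self (c.re * L z)]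
      have h3 : ‖c‖ ^ i ≤ (1 + ‖c‖) ^ k :=
        (pow_le_pow_left₀ (norm_nonneg _) (by linarith) i).trans
          (pow_le_pow_right₀ hc1 (hi.trans hj))
      calc ‖c‖ ^ i * Real.exp (c * ((L z : ℝ) : ℂ)).re ≤ (1 + ‖c‖) ^ k * Real.exp D :=
            mul_le_mul h3 (Real.exp_le_exp.2 h2) (Real.exp_pos _).le (by positivity)
        _ = _ := by ring
    · intro i hi1 hi
      exact (hLD i (hi.trans hj)).trans (le_self_pow₀ hD (by omega))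
  have h1 := norm_iteratedFDeriv_mul_le (n := k) hP hE z (by exact_mod_cast le_top)
  refine h1.trans ?_
  have h2 : ∀ i ∈ Finset.range (k + 1), (k.choose i : ℝ) * ‖iteratedFDeriv ℝ i P z‖ *
      ‖iteratedFDeriv ℝ (k - i) ((fun x : ℝ => cexp (c * x)) ∘ L) z‖ ≤
      (k.choose i : ℝ) * a * (k ! * (Real.exp D * (1 + ‖c‖) ^ k) * D ^ k) := by
    intro i hi
    have hik : i ≤ k := by
      have := Finset.mem_range.1 hi
      omega
    refine mul_le_mul (mul_le_mul_of_nonneg_left (ha i hik) (by positivity))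
      (hj (k - i) (Nat.sub_le _ _)) (norm_nonneg _) (by positivity)
  refine (Finset.sum_le_sum h2).trans (le_of_eq ?_)
  rw [← Finset.sum_mul, ← Finset.sum_mul]
  congr 2
  have h3 := Nat.sum_range_choose k
  exact_mod_cast h3

theorem smooth_ofRC {A : ℂ → ℝ} (hA : ContDiff ℝ ∞ A) : ContDiff ℝ ∞ (fun z => (A z : ℂ)) :=
  Complex.ofRealCLM.contDiff.comp hA

/-- the derivatives of the real functions -/
theorem norm_ofR {A : ℂ → ℝ} (hA : ContDiff ℝ ∞ A) (i : ℕ) (z : ℂ) :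
    ‖iteratedFDeriv ℝ i (fun z => (A z : ℂ)) z‖ = ‖iteratedFDeriv ℝ i A z‖ := by
  have h := Complex.ofRealLI.norm_iteratedFDeriv_comp_left (f := A) (x := z) (n := ∞)
    hA.contDiffAt (i := i) (by exact_mod_cast le_top)
  exact h

/-- the bound in both regions -/
theorem key_bound (k : ℕ) {W G H : ℝ → ℝ} {s : ℂ} (hs : Nr s) {R M : ℝ} {A A' L : ℂ → ℝ}
    {κ : ℂ} (hA : ContDiff ℝ ∞ A) (hA' : ContDiff ℝ ∞ A') (hL : ContDiff ℝ ∞ L) (hκ : ‖κ‖ ≤ 1)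
    (he : ∀ z, Fzc W G H s R M z = (1 - (2 : ℂ) ^ (s - 1))⁻¹ * κ *
      (((A z : ℂ) - (2 : ℂ) ^ (s - 1) * (A' z : ℂ)) * cexp ((1 / 2 - s) * L z)))
    {a D : ℝ} {z : ℂ} (ha : ∀ i ≤ k, ‖iteratedFDeriv ℝ i A z‖ ≤ a)
    (ha' : ∀ i ≤ k, ‖iteratedFDeriv ℝ i A' z‖ ≤ a) (hD : 1 ≤ D)
    (hLD : ∀ i ≤ k, ‖iteratedFDeriv ℝ i L z‖ ≤ D) :
    ‖iteratedFDeriv ℝ k (Fzc W G H s R M) z‖ ≤
      5 * (2 ^ k * (2 * a) * (k ! * (Real.exp D * 2 ^ k) * D ^ k)) * (1 + |s.im|) ^ k := by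
  have hA1 := smooth_ofRC hA
  have hA2 := smooth_ofRC hA'
  have ha0 : 0 ≤ a := (norm_nonneg _).trans (ha 0 (Nat.zero_le _))
  have hP : ContDiff ℝ ∞ (fun z => (A z : ℂ) - (2 : ℂ) ^ (s - 1) * (A' z : ℂ)) :=
    hA1.sub (contDiff_const.mul hA2)
  have hPE : ContDiff ℝ ∞ (fun z => ((A z : ℂ) - (2 : ℂ) ^ (s - 1) * (A' z : ℂ)) *
      cexp ((1 / 2 - s) * L z)) := hP.mul ((smooth_exp (1 / 2 - s)).comp hL)
  have e1 : Fzc W G H s R M = ((1 - (2 : ℂ) ^ (s - 1))⁻¹ * κ) •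
      (fun z => ((A z : ℂ) - (2 : ℂ) ^ (s - 1) * (A' z : ℂ)) * cexp ((1 / 2 - s) * L z)) := by
    funext z
    rw [he z]
    rfl
  obtain ⟨hr1, hr2⟩ := re_bounds hs
  have hcre : |(1 / 2 - s).re| ≤ 1 / 16 := by
    have : (1 / 2 - s).re = 1 / 2 - s.re := by simp
    rw [this, abs_le]
    constructor <;> linarith
  have hP2 : ∀ i ≤ k, ‖iteratedFDeriv ℝ i
      (fun z => (A z : ℂ) - (2 : ℂ) ^ (s - 1) * (A' z : ℂ)) z‖ ≤ 2 * a := by
    intro i hi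
    have h1 : (fun z => (A z : ℂ) - (2 : ℂ) ^ (s - 1) * (A' z : ℂ)) =
        (fun z => (A z : ℂ)) + (-(2 : ℂ) ^ (s - 1)) • (fun z => (A' z : ℂ)) := by
      funext z
      simp only [Pi.add_apply, Pi.smul_apply, smul_eq_mul]
      ring
    have hsm : ContDiff ℝ ∞ ((-(2 : ℂ) ^ (s - 1)) • (fun z => (A' z : ℂ))) :=
      contDiff_const.smul hA2
    rw [h1, iteratedFDeriv_add_apply (hA1.of_le (by exact_mod_cast le_top)).contDiffAt
      (hsm.of_le (by exact_mod_cast le_top)).contDiffAt,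
      iteratedFDeriv_const_smul_apply (hA2.of_le (by exact_mod_cast le_top)).contDiffAt]
    refine (norm_add_le _ _).trans ?_
    rw [norm_smul, norm_ofR hA, norm_ofR hA', norm_neg]
    have h2 := mul_le_mul ((q_norm hs).trans (by norm_num : (4 / 5 : ℝ) ≤ 1)) (ha' i hi)
      (norm_nonneg _) zero_le_one
    linarith [ha i hi]
  have h1 := mulexp k (c := 1 / 2 - s) hP hL hP2 hD hLD (hcre.trans (by norm_num))
  rw [e1, iteratedFDeriv_const_smul_apply (hPE.of_le (by exact_mod_cast le_top)).contDiffAt,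
    norm_smul, norm_mul, norm_inv]
  have hq : ‖1 - (2 : ℂ) ^ (s - 1)‖⁻¹ ≤ 5 := by
    have h2 := q_sub hs
    rw [inv_le_comm₀ (by linarith) (by norm_num)]
    linarith
  have hqκ : ‖1 - (2 : ℂ) ^ (s - 1)‖⁻¹ * ‖κ‖ ≤ 5 * 1 :=
    mul_le_mul hq hκ (norm_nonneg _) (by norm_num)
  have hcn : 1 + ‖1 / 2 - s‖ ≤ 2 * (1 + |s.im|) := by
    have h2 := Complex.norm_le_abs_re_add_abs_im (1 / 2 - s)
    have h3 : (1 / 2 - s).im = -s.im := by simp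
    rw [h3, abs_neg] at h2
    linarith [abs_nonneg s.im]
  have hck : (1 + ‖1 / 2 - s‖) ^ k ≤ 2 ^ k * (1 + |s.im|) ^ k := by
    rw [← mul_pow]
    exact pow_le_pow_left₀ (by positivity) hcn k
  calc _ ≤ (5 * 1) * (2 ^ k * (2 * a) * (k ! * (Real.exp D * (1 + ‖1 / 2 - s‖) ^ k) * D ^ k)) :=
        mul_le_mul hqκ h1 (norm_nonneg _) (by norm_num)
    _ ≤ (5 * 1) * (2 ^ k * (2 * a) * (k ! * (Real.exp D * (2 ^ k * (1 + |s.im|) ^ k)) * D ^ k)) := by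
        gcongr
    _ = _ := by ring

/-- the complex power through the exponential function -/
theorem cpow_eq {v : ℝ} (hv : 0 < v) (c : ℂ) : (v : ℂ) ^ c = cexp (c * (Real.log v : ℝ)) := by
  have hvc : (v : ℂ) ≠ 0 := by exact_mod_cast hv.ne'
  rw [Complex.cpow_def_of_ne_zero hvc, ← Complex.ofReal_log hv.le, mul_comm]

theorem smooth_L1 {l : ℝ → ℝ} (hl : ContDiff ℝ ∞ l) :
    ContDiff ℝ ∞ (fun p : (ℝ × ℝ) × ℂ => l (‖1 + (p.1.1 : ℂ) * p.2‖ ^ 2)) := by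
  have h1 : ContDiff ℝ ∞ (fun p : (ℝ × ℝ) × ℂ => (p.1.1 : ℂ)) :=
    Complex.ofRealCLM.contDiff.comp (contDiff_fst.comp contDiff_fst)
  exact hl.comp (gfs_nsq (contDiff_const.add (h1.mul contDiff_snd)))

theorem smooth_L2 {l : ℝ → ℝ} (hl : ContDiff ℝ ∞ l) :
    ContDiff ℝ ∞ (fun p : (ℝ × ℝ) × ℂ => l (‖p.2 + (p.1.1 : ℂ)‖ ^ 2)) := by
  have h1 : ContDiff ℝ ∞ (fun p : (ℝ × ℝ) × ℂ => (p.1.1 : ℂ)) :=
    Complex.ofRealCLM.contDiff.comp (contDiff_fst.comp contDiff_fst)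
  exact hl.comp (gfs_nsq (contDiff_snd.add h1))

/-- the function for large `R` -/
def F2 (W G H : ℝ → ℝ) (c r M : ℝ) (z : ℂ) : ℝ := c * H (c ^ 2 * ‖z + (r : ℂ)‖ ^ 2) *
    G (‖z + (r : ℂ)‖ ^ 2 * M) * w1 W (‖z‖ ^ 2)

theorem F2_eq {W G H : ℝ → ℝ} (hH : IsH H) {δ q c R : ℝ} (hδ : 0 < δ)
    (hq : 0 < q) (hqq : q ^ 2 = δ) (hw0 : ∀ u, u ≤ δ → w1 W u = 0) (hc : 0 < c)
    (hcc : c ^ 2 = 9 / (2 * δ)) (hR : 0 < R) (hRq : 3 < R * q) {l : ℝ → ℝ}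
    (hl : ∀ v, 4 * δ / 9 ≤ v → l v = Real.log v) (s : ℂ) (M' : ℝ) (z : ℂ)
    (hRw : ‖1 + (R : ℂ) * z‖ = R * ‖z + ((R⁻¹ : ℝ) : ℂ)‖)
    (hsup : δ < ‖z‖ ^ 2 → 2 * q / 3 ≤ ‖z + ((R⁻¹ : ℝ) : ℂ)‖) :
    (Fz W G H R M' z : ℂ) * ((‖1 + (R : ℂ) * z‖ ^ 2 : ℝ) : ℂ) ^ (1 / 2 - s) =
      ((R⁻¹ : ℝ) : ℂ) * cexp ((1 / 2 - s) * ((2 * Real.log R : ℝ) : ℂ)) *
        ((F2 W G H c R⁻¹ (M' * R ^ 2) z : ℂ) *
            cexp ((1 / 2 - s) * (l (‖z + ((R⁻¹ : ℝ) : ℂ)‖ ^ 2) : ℝ))) := by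
  rcases le_or_gt (‖z‖ ^ 2) δ with hz | hz
  · have e1 : Fz W G H R M' z = 0 := by
      unfold Fz
      rw [hw0 _ hz, mul_zero]
    have e2 : F2 W G H c R⁻¹ (M' * R ^ 2) z = 0 := by
      unfold F2
      rw [hw0 _ hz, mul_zero]
    rw [e1, e2, Complex.ofReal_zero, zero_mul, zero_mul, mul_zero]
  · have h1 := hsup hz
    rw [hRw]
    obtain ⟨v, hv⟩ : ∃ v, v = ‖z + ((R⁻¹ : ℝ) : ℂ)‖ := ⟨_, rfl⟩
    rw [← hv] at h1 hRw ⊢
    have hvp : 0 < v := by linarith [div_pos (mul_pos two_pos hq) three_pos]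
    have hv2 : 4 * δ / 9 ≤ v ^ 2 := by
      have : (2 * q / 3) ^ 2 ≤ v ^ 2 := pow_le_pow_left₀ (by positivity) h1 2
      nlinarith
    have hRv : 2 ≤ (R * v) ^ 2 := by
      have : 2 ≤ R * v := by nlinarith
      nlinarith
    have hcv : 2 ≤ (c * v) ^ 2 := by
      rw [mul_pow, hcc]
      calc (2 : ℝ) = 9 / (2 * δ) * (4 * δ / 9) := by field_simp; norm_num
        _ ≤ _ := by gcongr
    have e1 : H ((R * v) ^ 2) = (R * v)⁻¹ := gfs_Hval hH (mul_pos hR hvp) hRv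
    have e2 : H (c ^ 2 * v ^ 2) = (c * v)⁻¹ := by
      rw [← mul_pow]; exact gfs_Hval hH (mul_pos hc hvp) hcv
    have e3 : (R * v) ^ 2 * M' = v ^ 2 * (M' * R ^ 2) := by ring
    have e4 : Fz W G H R M' z = R⁻¹ * F2 W G H c R⁻¹ (M' * R ^ 2) z := by
      unfold F2 Fz
      rw [hRw, ← hv, e1, e2, e3]
      have : (R * v)⁻¹ = R⁻¹ * (c * (c * v)⁻¹) := by
        field_simp
      rw [this]
      ring
    have e5 : Real.log ((R * v) ^ 2) = 2 * Real.log R + Real.log (v ^ 2) := by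
      rw [mul_pow, Real.log_mul (by positivity) (by positivity), Real.log_pow R 2]
      norm_num
    rw [e4, cpow_eq (by positivity), e5, hl _ hv2, Complex.ofReal_add, mul_add,
      Complex.exp_add, Complex.ofReal_mul]
    ring

theorem F2_zero {W G H : ℝ → ℝ} (hG : IsG G) {δ q c r : ℝ} (hδ : 0 < δ)
    (hq : 0 < q) (hqq : q ^ 2 = δ) (hw0 : ∀ u, u ≤ δ → w1 W u = 0)
    (hsup : ∀ z : ℂ, δ < ‖z‖ ^ 2 → 2 * q / 3 ≤ ‖z + (r : ℂ)‖) (M : ℝ)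
    (hM : 27 / (4 * δ) ≤ M) : F2 W G H c r M = 0 := by
  funext z
  simp only [F2, Pi.zero_apply]
  rcases le_or_gt (‖z‖ ^ 2) δ with hz | hz
  · rw [hw0 _ hz, mul_zero]
  · have h1 := hsup z hz
    have hv2 : 4 * δ / 9 ≤ ‖z + (r : ℂ)‖ ^ 2 := by
      have : (2 * q / 3) ^ 2 ≤ ‖z + (r : ℂ)‖ ^ 2 := pow_le_pow_left₀ (by positivity) h1 2
      nlinarith
    have h3 : 3 ≤ ‖z + (r : ℂ)‖ ^ 2 * M := by
      calc (3 : ℝ) = (4 * δ / 9) * (27 / (4 * δ)) := by field_simp; norm_num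
        _ ≤ _ := by gcongr
    rw [hG.high _ h3, mul_zero, zero_mul]

theorem norm_kap {s : ℂ} (hs : Nr s) {R : ℝ} (hR : 1 ≤ R) :
    ‖((R⁻¹ : ℝ) : ℂ) * cexp ((1 / 2 - s) * ((2 * Real.log R : ℝ) : ℂ))‖ ≤ 1 := by
  have hR0 : 0 < R := by linarith
  have hr0 : (0 : ℝ) ≤ R⁻¹ := inv_nonneg.2 hR0.le
  rw [norm_mul, Complex.norm_real, Real.norm_of_nonneg hr0, Complex.norm_exp,
    Complex.re_mul_ofReal]
  have h5 : (1 / 2 - s).re * (2 * Real.log R) ≤ Real.log R := by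
    have h6 : (1 / 2 - s).re = 1 / 2 - s.re := by simp
    have h7 : 0 ≤ Real.log R := Real.log_nonneg hR
    rw [h6]
    nlinarith [(re_bounds hs).1]
  calc R⁻¹ * Real.exp ((1 / 2 - s).re * (2 * Real.log R)) ≤ R⁻¹ * Real.exp (Real.log R) := by
        gcongr
    _ = 1 := by
        rw [Real.exp_log hR0]
        field_simp

/-- the splitting of `Gs` -/
theorem Fzc_split (W G H : ℝ → ℝ) (s : ℂ) (R M : ℝ) (z : ℂ) :
    Fzc W G H s R M z = (1 - (2 : ℂ) ^ (s - 1))⁻¹ *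
      ((Fz W G H R M z : ℂ) - (2 : ℂ) ^ (s - 1) * (Fz W G H R (M / 2) z : ℂ)) *
        ((‖1 + (R : ℂ) * z‖ ^ 2 : ℝ) : ℂ) ^ (1 / 2 - s) := by
  unfold Fzc Fz Hs Gs
  rw [show ‖1 + (R : ℂ) * z‖ ^ 2 * M / 2 = ‖1 + (R : ℂ) * z‖ ^ 2 * (M / 2) by ring,
    div_eq_mul_inv]
  push_cast
  ring

theorem Fzc_smooth {W G H : ℝ → ℝ} (hW : IsW W) (hG : IsG G) (hH : IsH H) (h2 : T_HSC) (s : ℂ)
    (R M : ℝ) : ContDiff ℝ ∞ (Fzc W G H s R M) := by
  have hv : ContDiff ℝ ∞ (fun z : ℂ => ‖1 + (R : ℂ) * z‖ ^ 2) :=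
    gfs_nsq (contDiff_const.add (contDiff_const.mul contDiff_id))
  have hHs : ContDiff ℝ ∞ (Hs H s) := ((h2 H hH).1 s).1
  have hw : ContDiff ℝ ∞ (fun z : ℂ => ((w1 W (‖z‖ ^ 2) : ℝ) : ℂ)) :=
    smooth_ofRC ((gfs_w1 hW).comp (gfs_nsq contDiff_id))
  exact ((hHs.comp hv).mul ((smooth_Gs hG s).comp (hv.mul contDiff_const))).mul hw

theorem pf_GFC (_h1 : T_GSC) (h2 : T_HSC) (h3 : Pool.Agent.H33.HH.T_CPM)
    (h4 : Pool.Agent.H33.HH.T_GFS) : T_GFC := by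
  intro W G H hW hG hH k
  obtain ⟨δ₀, hδ₀, hlow₀⟩ := hW.low
  obtain ⟨δ, hδ, hδ1, hlow⟩ : ∃ δ : ℝ, 0 < δ ∧ δ < 1 ∧ ∀ u, u ≤ δ → W u = 0 :=
    ⟨min δ₀ (1 / 2), lt_min hδ₀ (by norm_num), lt_of_le_of_lt (min_le_right _ _) (by norm_num),
      fun u hu => hlow₀ u (hu.trans (min_le_left _ _))⟩
  have hw0 : ∀ u, u ≤ δ → w1 W u = 0 := fun u hu => by unfold w1; rw [hlow u hu, mul_zero]
  obtain ⟨q, hq, hqq⟩ : ∃ q : ℝ, 0 < q ∧ q ^ 2 = δ :=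
    ⟨Real.sqrt δ, Real.sqrt_pos.2 hδ, Real.sq_sqrt hδ.le⟩
  have hq1 : q < 1 := by nlinarith
  obtain ⟨c, hc, hcc⟩ : ∃ c : ℝ, 0 < c ∧ c ^ 2 = 9 / (2 * δ) :=
    ⟨Real.sqrt (9 / (2 * δ)), Real.sqrt_pos.2 (by positivity), Real.sq_sqrt (by positivity)⟩
  obtain ⟨l1, hl1s, hl1⟩ := exists_log (a := 1 / 2) (by norm_num)
  obtain ⟨l2, hl2s, hl2⟩ := exists_log (a := 4 * δ / 9) (by positivity)
  -- bounds of the logarithms
  obtain ⟨D₁, hD₁, hb₁⟩ := cpb _ (Set.Icc (0 : ℝ) (3 / q) ×ˢ Set.Icc (0 : ℝ) 1)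
    (smooth_L1 hl1s) (isCompact_Icc.prod isCompact_Icc) k
  obtain ⟨D₂, hD₂, hb₂⟩ := cpb _ (Set.Icc (0 : ℝ) (q / 3) ×ˢ Set.Icc (0 : ℝ) 1)
    (smooth_L2 hl2s) (isCompact_Icc.prod isCompact_Icc) k
  -- bounds of the real functions
  obtain ⟨a₁, ha₁, hA₁⟩ := unif k (fun i C => ∀ R M : ℝ, 0 < R → 0 < M → ∀ z : ℂ,
      ‖iteratedFDeriv ℝ i (Fz W G H R M) z‖ ≤ C)
    (fun _ _ _ hab h R M hR hM z => (h R M hR hM z).trans hab)
    (fun i => by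
      obtain ⟨C, -, hC⟩ := h4 W G H hW hG hH i
      exact ⟨C, fun R M hR hM => (hC R M hR hM).2.2.2⟩)
  have hsm2 : ∀ r M, ContDiff ℝ ∞ (F2 W G H c r M) := by
    intro r M
    have h5 : ContDiff ℝ ∞ (fun z : ℂ => ((r, M), z)) :=
      (contDiff_const (c := (r, M))).prodMk contDiff_id
    have h6 := (gfs_F2 hW hG hH c).comp h5
    exact h6
  -- on the support
  have hsup : ∀ r : ℝ, 0 ≤ r → r ≤ q / 3 → ∀ z : ℂ, δ < ‖z‖ ^ 2 →
      2 * q / 3 ≤ ‖z + (r : ℂ)‖ := by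
    intro r hr0 hr z hz
    have hqz : q < ‖z‖ := by
      have := norm_nonneg z
      nlinarith
    have h1 := norm_sub_norm_le z (-(r : ℂ))
    rw [norm_neg, sub_neg_eq_add] at h1
    have h2 : ‖(r : ℂ)‖ = r := by
      rw [Complex.norm_real, Real.norm_of_nonneg hr0]
    rw [h2] at h1
    linarith
  obtain ⟨a₂, ha₂, hA₂⟩ := unif k (fun i C => 0 ≤ C ∧ ∀ r : ℝ, 0 ≤ r → r ≤ q / 3 → ∀ M, 0 ≤ M →
      ∀ z : ℂ, ‖iteratedFDeriv ℝ i (F2 W G H c r M) z‖ ≤ C)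
    (fun _ _ _ hab h => ⟨h.1.trans hab, fun r h1 h2 M hM z => (h.2 r h1 h2 M hM z).trans hab⟩)
    (fun i => by
      obtain ⟨C, hC0, hC⟩ := h3 _ (Set.Icc (0 : ℝ) (q / 3) ×ˢ Set.Icc (0 : ℝ) (27 / (4 * δ))) 1
        (gfs_F2 hW hG hH c) (isCompact_Icc.prod isCompact_Icc)
        (fun p _ z hz => by
          show _ * w1 W (‖z‖ ^ 2) = 0
          rw [gfs_w1_high hW (gfs_sq_of hz), mul_zero]) i
      refine ⟨C, hC0, fun r hr0 hr M hM z => ?_⟩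
      rcases le_or_gt (27 / (4 * δ)) M with h5 | h5
      · rw [F2_zero hG hδ hq hqq hw0 (hsup r hr0 hr) M h5]
        have : iteratedFDeriv ℝ i (0 : ℂ → ℝ) = 0 := iteratedFDeriv_fun_zero
        rw [this]
        simpa using hC0
      · exact hC (r, M) ⟨⟨hr0, hr⟩, ⟨hM, h5.le⟩⟩ z)
  -- the constant
  set B : ℝ → ℝ → ℝ := fun a D => 5 * (2 ^ k * (2 * a) * (k ! * (Real.exp D * 2 ^ k) * D ^ k))
    with hBdef
  have hB1 : 0 ≤ B a₁ D₁ := by simp only [hBdef]; positivity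
  refine ⟨max (B a₁ D₁) (B a₂ D₂), le_max_of_le_left hB1, fun s hs R M hR hM => ?_⟩
  have hout : ∀ z, 1 < ‖z‖ → Fzc W G H s R M z = 0 := by
    intro z hz
    unfold Fzc
    rw [gfs_w1_high hW (gfs_sq_of hz), Complex.ofReal_zero, mul_zero]
  refine ⟨?_, hout, ?_, ?_⟩
  · exact Fzc_smooth hW hG hH h2 s R M
  · have h1 : Tendsto (fun z : ℂ => ‖z‖ ^ 2) (𝓝 0) (𝓝 0) := by
      have : Continuous (fun z : ℂ => ‖z‖ ^ 2) := continuous_norm.pow 2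
      simpa using this.tendsto 0
    filter_upwards [h1.eventually (gt_mem_nhds hδ)] with z hz
    unfold Fzc
    rw [hw0 _ hz.le, Complex.ofReal_zero, mul_zero]
  intro z
  have hpow : 0 ≤ (1 + |s.im|) ^ k := by positivity
  rcases lt_or_ge 1 ‖z‖ with hz1 | hz1
  · have e : Fzc W G H s R M =ᶠ[𝓝 z] (fun _ => (0 : ℂ)) := by
      filter_upwards [(isOpen_lt continuous_const continuous_norm).mem_nhds hz1] with w hw
      exact hout w hw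
    have h5 : iteratedFDeriv ℝ k (Fzc W G H s R M) z =
        iteratedFDeriv ℝ k (fun _ : ℂ => (0 : ℂ)) z :=
      (Filter.EventuallyEq.iteratedFDeriv ℝ e k).eq_of_nhds
    rw [h5]
    simp only [iteratedFDeriv_fun_zero, Pi.zero_apply, norm_zero]
    exact mul_nonneg (le_max_of_le_left hB1) hpow
  have hM2 : 0 < M / 2 := by positivity
  rcases le_or_gt R (3 / q) with hR0 | hR0
  · have hL : ContDiff ℝ ∞ (fun z : ℂ => l1 (‖1 + (R : ℂ) * z‖ ^ 2)) := by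
      have h5 : ContDiff ℝ ∞ (fun z : ℂ => ((R, (0 : ℝ)), z)) :=
        (contDiff_const (c := (R, (0 : ℝ)))).prodMk contDiff_id
      have h6 := (smooth_L1 hl1s).comp h5
      exact h6
    have hz2 : ∀ M' : ℝ, ∀ z : ℂ, (Fz W G H R M' z : ℂ) *
        ((‖1 + (R : ℂ) * z‖ ^ 2 : ℝ) : ℂ) ^ (1 / 2 - s) = (Fz W G H R M' z : ℂ) *
        cexp ((1 / 2 - s) * (l1 (‖1 + (R : ℂ) * z‖ ^ 2) : ℝ)) := by
      intro M' z
      rcases le_or_gt (‖1 + (R : ℂ) * z‖ ^ 2) (1 / 2) with hv | hv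
      · have : Fz W G H R M' z = 0 := by
          unfold Fz
          rw [hH.low _ hv, zero_mul, zero_mul]
        rw [this, Complex.ofReal_zero, zero_mul, zero_mul]
      · rw [cpow_eq (by linarith), hl1 _ hv.le]
    have hLb : ∀ i ≤ k, ‖iteratedFDeriv ℝ i (fun z : ℂ => l1 (‖1 + (R : ℂ) * z‖ ^ 2)) z‖ ≤ D₁ :=
      fun i hi => hb₁ i hi (R, 0) ⟨⟨hR.le, hR0⟩, ⟨le_rfl, zero_le_one⟩⟩ z hz1
    have hid : ∀ z, Fzc W G H s R M z = (1 - (2 : ℂ) ^ (s - 1))⁻¹ * 1 *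
        (((Fz W G H R M z : ℂ) - (2 : ℂ) ^ (s - 1) * (Fz W G H R (M / 2) z : ℂ)) *
          cexp ((1 / 2 - s) * (l1 (‖1 + (R : ℂ) * z‖ ^ 2) : ℝ))) := by
      intro z
      rw [Fzc_split]
      have e1 := hz2 M z
      have e2 := hz2 (M / 2) z
      linear_combination (1 - (2 : ℂ) ^ (s - 1))⁻¹ * e1 -
        (1 - (2 : ℂ) ^ (s - 1))⁻¹ * (2 : ℂ) ^ (s - 1) * e2
    have hkb := key_bound k hs (W := W) (G := G) (H := H) (R := R) (M := M) (κ := 1)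
      (A := Fz W G H R M) (A' := Fz W G H R (M / 2)) (gfs_smooth hW hG hH R M)
      (gfs_smooth hW hG hH R (M / 2)) hL norm_one.le hid (a := a₁) (D := D₁) (z := z)
      (fun i hi => hA₁ i hi R M hR hM z) (fun i hi => hA₁ i hi R (M / 2) hR hM2 z) hD₁ hLb
    exact hkb.trans (mul_le_mul_of_nonneg_right (le_max_left _ _) hpow)
  · have hRq : 3 < R * q := by rwa [div_lt_iff₀ hq] at hR0
    have hR3 : 3 < R := by nlinarith
    have hs' : R⁻¹ ≤ q / 3 := by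
      rw [inv_le_iff_one_le_mul₀ hR]; nlinarith
    have hr0 : (0 : ℝ) ≤ R⁻¹ := inv_nonneg.2 hR.le
    have hRw : ∀ z : ℂ, ‖1 + (R : ℂ) * z‖ = R * ‖z + ((R⁻¹ : ℝ) : ℂ)‖ := by
      intro z
      have h1 : 1 + (R : ℂ) * z = (R : ℂ) * (z + ((R⁻¹ : ℝ) : ℂ)) := by
        have : (R : ℂ) ≠ 0 := by exact_mod_cast hR.ne'
        push_cast
        field_simp
        ring
      rw [h1, norm_mul, Complex.norm_real, Real.norm_of_nonneg hR.le]
    have hL : ContDiff ℝ ∞ (fun z : ℂ => l2 (‖z + ((R⁻¹ : ℝ) : ℂ)‖ ^ 2)) := by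
      have h5 : ContDiff ℝ ∞ (fun z : ℂ => ((R⁻¹, (0 : ℝ)), z)) :=
        (contDiff_const (c := (R⁻¹, (0 : ℝ)))).prodMk contDiff_id
      have h6 := (smooth_L2 hl2s).comp h5
      exact h6
    have hkey := fun (M' : ℝ) (z : ℂ) => F2_eq (G := G) hH hδ hq hqq hw0 hc hcc hR hRq hl2 s M' z
      (hRw z) (hsup R⁻¹ hr0 hs' z)
    have hLb : ∀ i ≤ k,
        ‖iteratedFDeriv ℝ i (fun z : ℂ => l2 (‖z + ((R⁻¹ : ℝ) : ℂ)‖ ^ 2)) z‖ ≤ D₂ :=
      fun i hi => hb₂ i hi (R⁻¹, 0) ⟨⟨hr0, hs'⟩, ⟨le_rfl, zero_le_one⟩⟩ z hz1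
    have hid : ∀ z, Fzc W G H s R M z = (1 - (2 : ℂ) ^ (s - 1))⁻¹ *
        (((R⁻¹ : ℝ) : ℂ) * cexp ((1 / 2 - s) * ((2 * Real.log R : ℝ) : ℂ))) *
        (((F2 W G H c R⁻¹ (M * R ^ 2) z : ℂ) -
          (2 : ℂ) ^ (s - 1) * (F2 W G H c R⁻¹ (M / 2 * R ^ 2) z : ℂ)) *
          cexp ((1 / 2 - s) * (l2 (‖z + ((R⁻¹ : ℝ) : ℂ)‖ ^ 2) : ℝ))) := by
      intro z
      rw [Fzc_split]
      have e1 := hkey M z
      have e2 := hkey (M / 2) z
      linear_combination (1 - (2 : ℂ) ^ (s - 1))⁻¹ * e1 -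
        (1 - (2 : ℂ) ^ (s - 1))⁻¹ * (2 : ℂ) ^ (s - 1) * e2
    have hkb := key_bound k hs (W := W) (G := G) (H := H) (R := R) (M := M)
      (A := F2 W G H c R⁻¹ (M * R ^ 2)) (A' := F2 W G H c R⁻¹ (M / 2 * R ^ 2))
      (hsm2 R⁻¹ (M * R ^ 2)) (hsm2 R⁻¹ (M / 2 * R ^ 2)) hL
      (norm_kap hs (show (1 : ℝ) ≤ R by linarith)) hid (a := a₂) (D := D₂) (z := z)
      (fun i hi => (hA₂ i hi).2 R⁻¹ hr0 hs' (M * R ^ 2) (by positivity) z)
      (fun i hi => (hA₂ i hi).2 R⁻¹ hr0 hs' (M / 2 * R ^ 2) (by positivity) z) hD₂ hLb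
    exact hkb.trans (mul_le_mul_of_nonneg_right (le_max_right _ _) hpow)

end

end Pool.Agent.H67.HC
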