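import Pool.Agent.H33.HC.TA

/-!
# Row GSC of hcz_modules: the weight `Gs`
-/

set_option autoImplicit false

open Complex Filter Topology MeasureTheory
open scoped ContDiff

namespace Pool.Agent.H67.HC

open Pool.Agent.H33.HC Pool.Agent.H33.HH

noncomputable section

theorem re_bounds {s : ℂ} (hs : Nr s) : 7 / 16 ≤ s.re ∧ s.re ≤ 9 / 16 := by
  unfold Nr at hs
  rw [abs_le] at hs
  constructor <;> linarith [hs.1, hs.2]

theorem q_norm {s : ℂ} (hs : Nr s) : ‖(2 : ℂ) ^ (s - 1)‖ ≤ 4 / 5 := by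
  have h1 : ‖(2 : ℂ) ^ (s - 1)‖ = (2 : ℝ) ^ (s.re - 1) := by
    have h := Complex.norm_cpow_eq_rpow_re_of_pos (by norm_num : (0 : ℝ) < 2) (s - 1)
    rw [show ((2 : ℝ) : ℂ) = 2 by norm_num] at h
    rw [h]
    simp
  rw [h1]
  have h2 : (2 : ℝ) ^ (s.re - 1) ≤ (2 : ℝ) ^ (-(7 / 16) : ℝ) :=
    Real.rpow_le_rpow_of_exponent_le (by norm_num) (by linarith [(re_bounds hs).2])
  refine h2.trans ?_
  have h3 : ((2 : ℝ) ^ (-(7 / 16) : ℝ)) ^ 16 ≤ (4 / 5 : ℝ) ^ 16 := by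
    rw [← Real.rpow_natCast, ← Real.rpow_mul (by norm_num)]
    norm_num
  exact le_of_pow_le_pow_left₀ (by norm_num) (by norm_num) h3

theorem q_sub {s : ℂ} (hs : Nr s) : 1 / 5 ≤ ‖1 - (2 : ℂ) ^ (s - 1)‖ := by
  have h := norm_sub_norm_le (1 : ℂ) ((2 : ℂ) ^ (s - 1))
  rw [norm_one] at h
  linarith [q_norm hs]

theorem q_ne {s : ℂ} (hs : Nr s) : 1 - (2 : ℂ) ^ (s - 1) ≠ 0 := by
  intro h
  have := q_sub hs
  rw [h, norm_zero] at this
  norm_num at this

theorem smooth_ofReal {f : ℝ → ℝ} (hf : ContDiff ℝ ∞ f) :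
    ContDiff ℝ ∞ (fun v => (f v : ℂ)) := Complex.ofRealCLM.contDiff.comp hf

theorem smooth_Gs {G : ℝ → ℝ} (hG : IsG G) (s : ℂ) : ContDiff ℝ ∞ (Gs G s) := by
  unfold Gs
  have h1 := smooth_ofReal hG.smooth
  have h2 : ContDiff ℝ ∞ (fun v : ℝ => ((G (v / 2) : ℝ) : ℂ)) :=
    smooth_ofReal (hG.smooth.comp (contDiff_id.div_const 2))
  exact (h1.sub (contDiff_const.mul h2)).div_const _

theorem low_Gs {G : ℝ → ℝ} (hG : IsG G) {s : ℂ} (hs : Nr s) (v : ℝ) (hv : v ≤ 1) :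
    Gs G s v = 1 := by
  unfold Gs
  rw [hG.low v hv]
  rcases le_or_gt v 0 with h | h
  · rw [hG.low (v / 2) (by linarith)]
    push_cast
    rw [mul_one]
    exact div_self (q_ne hs)
  · rw [hG.low (v / 2) (by linarith)]
    push_cast
    rw [mul_one]
    exact div_self (q_ne hs)

theorem high_Gs {G : ℝ → ℝ} (hG : IsG G) (s : ℂ) (v : ℝ) (hv : 6 ≤ v) : Gs G s v = 0 := by
  unfold Gs
  rw [hG.high v (by linarith), hG.high (v / 2) (by linarith)]
  simp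

/-- the iterated derivatives -/
theorem it_Gs {G : ℝ → ℝ} (hG : IsG G) (s : ℂ) (k : ℕ) :
    iteratedDeriv k (Gs G s) = fun v => (((iteratedDeriv k G v : ℝ) : ℂ) -
      (2 : ℂ) ^ (s - 1) * (((1 / 2 : ℝ) ^ k * iteratedDeriv k G (v / 2) : ℝ) : ℂ)) /
        (1 - (2 : ℂ) ^ (s - 1)) := by
  induction k with
  | zero =>
    funext v
    simp [Gs]
  | succ k ih =>
    rw [iteratedDeriv_succ, ih]
    funext v
    have hd : ∀ x, HasDerivAt (iteratedDeriv k G) (iteratedDeriv (k + 1) G x) x := by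
      intro x
      rw [iteratedDeriv_succ]
      exact ((hG.smooth.differentiable_iteratedDeriv k
        (by exact_mod_cast ENat.natCast_lt_top k)) x).hasDerivAt
    have h1 := (hd v).ofReal_comp
    have h2 : HasDerivAt (fun v : ℝ => v / 2) (1 / 2) v := (hasDerivAt_id v).div_const 2
    have h3 : HasDerivAt (fun v : ℝ => (1 / 2 : ℝ) ^ k * iteratedDeriv k G (v / 2))
        ((1 / 2 : ℝ) ^ k * (iteratedDeriv (k + 1) G (v / 2) * (1 / 2))) v :=
      ((hd (v / 2)).comp v h2).const_mul _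
    have h4 := ((h1.sub (h3.ofReal_comp.const_mul ((2 : ℂ) ^ (s - 1)))).div_const
      (1 - (2 : ℂ) ^ (s - 1))).deriv
    refine Eq.trans h4 ?_
    congr 3
    rw [pow_succ]
    push_cast
    ring

/-- a bound for the derivatives of `G` -/
theorem bd_G {G : ℝ → ℝ} (hG : IsG G) (k : ℕ) :
    ∃ C : ℝ, 0 ≤ C ∧ ∀ v, |iteratedDeriv k G v| ≤ C := by
  have hc : Continuous (iteratedDeriv k G) :=
    hG.smooth.continuous_iteratedDeriv k (by exact_mod_cast le_top)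
  obtain ⟨C, hC⟩ := (isCompact_Icc (a := (1 : ℝ)) (b := 3)).exists_bound_of_continuousOn
    hc.continuousOn
  refine ⟨max C 1, le_max_of_le_right zero_le_one, fun v => ?_⟩
  rcases lt_or_ge v 1 with h1 | h1
  · have e : G =ᶠ[𝓝 v] fun _ => (1 : ℝ) := by
      filter_upwards [Iio_mem_nhds h1] with w hw
      exact hG.low w (le_of_lt hw)
    rw [e.iteratedDeriv_eq, iteratedDeriv_const]
    split_ifs
    · simp
    · simp
  · rcases le_or_gt v 3 with h3 | h3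
    · exact (hC v ⟨h1, h3⟩).trans (le_max_left _ _)
    · have e : G =ᶠ[𝓝 v] fun _ => (0 : ℝ) := by
        filter_upwards [Ioi_mem_nhds h3] with w hw
        exact hG.high w (le_of_lt hw)
      rw [e.iteratedDeriv_eq, iteratedDeriv_const]
      simp

theorem int_cont {g G : ℝ → ℂ} {R : ℝ} (hR : 0 ≤ R) (hg : IntegrableOn g (Set.Ioc 0 R))
    (hG : Continuous G) : IntegrableOn (fun u => g u * G u) (Set.Ioc 0 R) := by
  rw [← intervalIntegrable_iff_integrableOn_Ioc_of_le hR] at hg ⊢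
  exact hg.mul_continuousOn hG.continuousOn

theorem int_cpow {s : ℂ} (hs : Nr s) {R : ℝ} (hR : 0 ≤ R) :
    IntegrableOn (fun u : ℝ => (u : ℂ) ^ (-s)) (Set.Ioc 0 R) := by
  rw [← intervalIntegrable_iff_integrableOn_Ioc_of_le hR]
  apply intervalIntegral.intervalIntegrable_cpow'
  rw [Complex.neg_re]
  linarith [(re_bounds hs).2]

theorem int_all {s : ℂ} (hs : Nr s) {F : ℝ → ℂ} (hF : Continuous F) {B : ℝ} (hB : 0 < B)
    (h0 : ∀ v, B ≤ v → F v = 0) {t : ℝ} (ht : 0 < t) :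
    IntegrableOn (fun v : ℝ => (v : ℂ) ^ (-s) * F (v * t)) (Set.Ioi 0) := by
  have h1 : IntegrableOn (fun v : ℝ => (v : ℂ) ^ (-s) * F (v * t)) (Set.Ioc 0 (B / t)) :=
    int_cont (by positivity) (int_cpow hs (by positivity))
      (hF.comp (continuous_id.mul continuous_const))
  refine h1.of_forall_sdiff_eq_zero measurableSet_Ioi fun u hu => ?_
  have h2 : B / t < u := by
    by_contra h3
    exact hu.2 ⟨hu.1, not_lt.1 h3⟩
  have h3 : B ≤ u * t := by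
    rw [div_lt_iff₀ ht] at h2
    exact h2.le
  rw [h0 _ h3, mul_zero]

/-- rescaling -/
theorem int_scale (s : ℂ) (F : ℝ → ℂ) {t : ℝ} (ht : 0 < t) :
    ∫ v in Set.Ioi (0 : ℝ), (v : ℂ) ^ (-s) * F (v * t) =
      (t : ℂ) ^ s * (t : ℂ)⁻¹ * ∫ v in Set.Ioi (0 : ℝ), (v : ℂ) ^ (-s) * F v := by
  have h1 := integral_comp_mul_left_Ioi (fun v : ℝ => (v : ℂ) ^ (-s) * F v) 0 ht
  rw [mul_zero] at h1
  have htc : (t : ℂ) ≠ 0 := by exact_mod_cast ht.ne'
  have h2 : ∫ v in Set.Ioi (0 : ℝ), (v : ℂ) ^ (-s) * F (v * t) =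
      ∫ v in Set.Ioi (0 : ℝ), (t : ℂ) ^ s * (((t * v : ℝ) : ℂ) ^ (-s) * F (t * v)) := by
    refine setIntegral_congr_fun measurableSet_Ioi fun v hv => ?_
    have hv0 : 0 < v := hv
    have h3 : (t : ℂ) ^ s * (t : ℂ) ^ (-s) = 1 := by
      rw [← Complex.cpow_add _ _ htc, add_neg_cancel, Complex.cpow_zero]
    rw [Complex.ofReal_mul, Complex.mul_cpow_ofReal_nonneg ht.le hv0.le, mul_comm v t]
    calc (v : ℂ) ^ (-s) * F (t * v) =
        ((t : ℂ) ^ s * (t : ℂ) ^ (-s)) * ((v : ℂ) ^ (-s) * F (t * v)) := by rw [h3, one_mul]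
      _ = _ := by ring
  rw [h2, integral_const_mul, h1, Complex.real_smul]
  push_cast
  ring

theorem mean_Gs {G : ℝ → ℝ} (hG : IsG G) {s : ℂ} (hs : Nr s) {t : ℝ} (ht : 0 < t) :
    ∫ v in Set.Ioi (0 : ℝ), (v : ℂ) ^ (-s) * Gs G s (v * t) = 0 := by
  have hc : Continuous fun v : ℝ => (G v : ℂ) :=
    Complex.continuous_ofReal.comp hG.smooth.continuous
  have h0 : ∀ v, (3 : ℝ) ≤ v → ((G v : ℝ) : ℂ) = 0 := by
    intro v hv
    rw [hG.high v hv, Complex.ofReal_zero]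
  have ht2 : 0 < t / 2 := by positivity
  have i1 := int_all hs hc (by norm_num : (0 : ℝ) < 3) h0 ht
  have i2 := int_all hs hc (by norm_num : (0 : ℝ) < 3) h0 ht2
  have e1 := int_scale s (fun v => (G v : ℂ)) ht
  have e2 := int_scale s (fun v => (G v : ℂ)) ht2
  have h1 : ∀ v : ℝ, (v : ℂ) ^ (-s) * Gs G s (v * t) = (1 - (2 : ℂ) ^ (s - 1))⁻¹ *
      ((v : ℂ) ^ (-s) * (G (v * t) : ℂ) -
        (2 : ℂ) ^ (s - 1) * ((v : ℂ) ^ (-s) * (G (v * (t / 2)) : ℂ))) := by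
    intro v
    unfold Gs
    rw [show v * t / 2 = v * (t / 2) by ring, div_eq_mul_inv]
    ring
  rw [integral_congr_ae (Filter.Eventually.of_forall h1), integral_const_mul,
    integral_sub i1 (i2.const_mul _), integral_const_mul, e1, e2]
  have h2 : (2 : ℂ) ^ (s - 1) * (((t / 2 : ℝ) : ℂ) ^ s * ((t / 2 : ℝ) : ℂ)⁻¹) =
      (t : ℂ) ^ s * (t : ℂ)⁻¹ := by
    have h3 : (t : ℂ) ^ s = ((t / 2 : ℝ) : ℂ) ^ s * (2 : ℂ) ^ s := by
      have h4 := Complex.mul_cpow_ofReal_nonneg ht2.le (by norm_num : (0 : ℝ) ≤ 2) s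
      rw [← Complex.ofReal_mul, show t / 2 * 2 = t by ring] at h4
      rw [h4]
      norm_num
    rw [h3, Complex.cpow_sub _ _ (by norm_num), Complex.cpow_one]
    have htc : (t : ℂ) ≠ 0 := by exact_mod_cast ht.ne'
    push_cast
    field_simp
  rw [← mul_assoc ((2 : ℂ) ^ (s - 1)), h2, sub_self, mul_zero]

theorem pf_GSC : T_GSC := by
  intro G hG
  refine ⟨fun s hs => ⟨smooth_Gs hG s, low_Gs hG hs, high_Gs hG s, fun t ht => ⟨?_, ?_⟩⟩, ?_⟩
  · exact int_all hs (smooth_Gs hG s).continuous (by norm_num : (0 : ℝ) < 6) (high_Gs hG s) ht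
  · exact mean_Gs hG hs ht
  · intro k
    obtain ⟨C, hC, hb⟩ := bd_G hG k
    refine ⟨10 * C, by positivity, fun s hs v => ?_⟩
    rw [it_Gs hG s k]
    simp only
    rw [norm_div]
    have h1 : ‖(((iteratedDeriv k G v : ℝ) : ℂ) - (2 : ℂ) ^ (s - 1) *
        (((1 / 2 : ℝ) ^ k * iteratedDeriv k G (v / 2) : ℝ) : ℂ))‖ ≤ 2 * C := by
      refine (norm_sub_le _ _).trans ?_
      rw [norm_mul, Complex.norm_real, Complex.norm_real, Real.norm_eq_abs, Real.norm_eq_abs,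
        abs_mul]
      have h2 := hb v
      have h3 := hb (v / 2)
      have h4 : |(1 / 2 : ℝ) ^ k| ≤ 1 := by
        rw [abs_of_nonneg (by positivity)]
        exact pow_le_one₀ (by norm_num) (by norm_num)
      have h5 : |(1 / 2 : ℝ) ^ k| * |iteratedDeriv k G (v / 2)| ≤ 1 * C :=
        mul_le_mul h4 h3 (abs_nonneg _) zero_le_one
      have h6 : ‖(2 : ℂ) ^ (s - 1)‖ * (|(1 / 2 : ℝ) ^ k| * |iteratedDeriv k G (v / 2)|) ≤
          1 * (1 * C) :=
        mul_le_mul ((q_norm hs).trans (by norm_num)) h5 (by positivity) zero_le_one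
      linarith
    have h2 := q_sub hs
    rw [div_le_iff₀ (by linarith)]
    nlinarith

end

end Pool.Agent.H67.HC
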