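import Pool.Agent.H67.HC.GSC

/-!
# Row JIC of hcz_modules: the function `Jc` is smooth at `0`
-/

set_option autoImplicit false

open Complex Filter Topology MeasureTheory
open scoped ContDiff

namespace Pool.Agent.H67.HC

open Pool.Agent.H33.HC Pool.Agent.H33.HH

noncomputable section

/-- the integral over `(0, 2]` -/
def Fg (g G : ℝ → ℂ) (t : ℝ) : ℂ := ∫ u in Set.Ioc (0 : ℝ) 2, g u * G (u * t)

theorem cont_mul {G : ℝ → ℂ} (hG : Continuous G) (t : ℝ) : Continuous fun u => G (u * t) :=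
  hG.comp (continuous_id.mul continuous_const)

theorem hasDeriv {g G : ℝ → ℂ} (hg : IntegrableOn g (Set.Ioc 0 2)) (hG : ContDiff ℝ ∞ G)
    (t : ℝ) : HasDerivAt (Fg g G) (Fg (fun u => g u * (u : ℂ)) (deriv G) t) t := by
  have hG' : Continuous (deriv G) := hG.continuous_deriv (by simp)
  obtain ⟨C, hC⟩ := (isCompact_Icc (a := -(2 * (|t| + 1)))
    (b := 2 * (|t| + 1))).exists_bound_of_continuousOn hG'.continuousOn
  have h := hasDerivAt_integral_of_dominated_loc_of_deriv_le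
    (μ := volume.restrict (Set.Ioc (0 : ℝ) 2)) (s := Metric.ball t 1) (x₀ := t)
    (F := fun x u => g u * G (u * x)) (F' := fun x u => g u * (u : ℂ) * deriv G (u * x))
    (bound := fun u => ‖g u‖ * (2 * C)) (Metric.ball_mem_nhds t one_pos)
    (Filter.Eventually.of_forall fun x =>
      hg.aestronglyMeasurable.mul (cont_mul hG.continuous x).aestronglyMeasurable)
    (int_cont zero_le_two hg (cont_mul hG.continuous t))
    ((hg.aestronglyMeasurable.mul Complex.continuous_ofReal.aestronglyMeasurable).mul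
      (cont_mul hG' t).aestronglyMeasurable)
    ?_ (hg.norm.mul_const _) ?_
  · exact h.2
  · rw [ae_restrict_iff' measurableSet_Ioc]
    refine Filter.Eventually.of_forall fun u hu x hx => ?_
    have hx1 : |x - t| < 1 := by simpa [Real.dist_eq] using hx
    have hx2 : |x| ≤ |t| + 1 := by
      have := abs_sub_abs_le_abs_sub x t
      linarith
    have hu0 : |u| ≤ 2 := by
      rw [abs_of_pos hu.1]
      exact hu.2
    have h1 : |u * x| ≤ 2 * (|t| + 1) := by
      rw [abs_mul]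
      exact mul_le_mul hu0 hx2 (abs_nonneg _) zero_le_two
    have h2 : ‖deriv G (u * x)‖ ≤ C := hC _ ⟨(abs_le.1 h1).1, (abs_le.1 h1).2⟩
    rw [norm_mul, norm_mul, mul_assoc, Complex.norm_real, Real.norm_eq_abs]
    exact mul_le_mul_of_nonneg_left (mul_le_mul hu0 h2 (norm_nonneg _) zero_le_two)
      (norm_nonneg _)
  · refine Filter.Eventually.of_forall fun u x _ => ?_
    have h1 : HasDerivAt G (deriv G (u * x)) (u * x) :=
      (hG.differentiable (by simp)).differentiableAt.hasDerivAt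
    have h2 : HasDerivAt (fun x => u * x) u x := by
      simpa using (hasDerivAt_id x).const_mul u
    have h3 := (h1.scomp x h2).const_mul (g u)
    refine h3.congr_deriv ?_
    rw [Complex.real_smul]
    ring

theorem deriv_Fg {g G : ℝ → ℂ} (hg : IntegrableOn g (Set.Ioc 0 2)) (hG : ContDiff ℝ ∞ G) :
    deriv (Fg g G) = Fg (fun u => g u * (u : ℂ)) (deriv G) :=
  funext fun t => (hasDeriv hg hG t).deriv

theorem smooth_nat (n : ℕ) : ∀ g G : ℝ → ℂ, IntegrableOn g (Set.Ioc 0 2) → ContDiff ℝ ∞ G →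
    ContDiff ℝ n (Fg g G) := by
  induction n with
  | zero =>
    intro g G hg hG
    refine contDiff_zero.2 (continuous_iff_continuousAt.2 fun t => ?_)
    exact (hasDeriv hg hG t).continuousAt
  | succ n ih =>
    intro g G hg hG
    push_cast
    rw [contDiff_succ_iff_deriv]
    refine ⟨fun t => (hasDeriv hg hG t).differentiableAt, fun h => by simp at h, ?_⟩
    rw [deriv_Fg hg hG]
    refine ih _ _ (int_cont zero_le_two hg Complex.continuous_ofReal) ?_
    exact (contDiff_infty_iff_deriv.1 hG).2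

theorem smooth (g G : ℝ → ℂ) (hg : IntegrableOn g (Set.Ioc 0 2)) (hG : ContDiff ℝ ∞ G) :
    ContDiff ℝ ∞ (Fg g G) :=
  contDiff_infty.2 fun n => smooth_nat n g G hg hG

/-- the iterated derivatives -/
theorem it_Fg (k : ℕ) : ∀ g G : ℝ → ℂ, IntegrableOn g (Set.Ioc 0 2) → ContDiff ℝ ∞ G →
    iteratedDeriv k (Fg g G) = Fg (fun u => g u * (u : ℂ) ^ k) (iteratedDeriv k G) := by
  induction k with
  | zero =>
    intro g G hg hG
    simp
  | succ k ih =>
    intro g G hg hG
    rw [iteratedDeriv_succ', deriv_Fg hg hG,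
      ih _ _ (int_cont zero_le_two hg Complex.continuous_ofReal) (contDiff_infty_iff_deriv.1 hG).2,
      iteratedDeriv_succ']
    congr 1
    funext u
    ring

/-- the weight of the integral over `(0, 2]` -/
def gw (H : ℝ → ℝ) (s : ℂ) (v : ℝ) : ℂ :=
  ((1 - v ^ (1 / 2 : ℝ) * H v : ℝ) : ℂ) * (v : ℂ) ^ (-s)

theorem abs_H {H : ℝ → ℝ} (hH : IsH H) {v : ℝ} (hv : 0 < v) :
    |1 - v ^ (1 / 2 : ℝ) * H v| ≤ 1 := by
  have h1 := hH.sym v hv
  have h2 : 0 ≤ v ^ (1 / 2 : ℝ) * H v := mul_nonneg (Real.rpow_nonneg hv.le _) (hH.nonneg v)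
  have h3 : 0 ≤ v ^ (-(1 / 2) : ℝ) * H v⁻¹ :=
    mul_nonneg (Real.rpow_nonneg hv.le _) (hH.nonneg _)
  rw [abs_le]
  constructor <;> linarith

theorem int_gw {H : ℝ → ℝ} (hH : IsH H) {s : ℂ} (hs : Nr s) :
    IntegrableOn (gw H s) (Set.Ioc 0 2) := by
  have h1 : Continuous fun v : ℝ => ((1 - v ^ (1 / 2 : ℝ) * H v : ℝ) : ℂ) := by
    apply Complex.continuous_ofReal.comp
    exact continuous_const.sub ((Real.continuous_rpow_const (by norm_num)).mul
      hH.smooth.continuous)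
  have h2 := int_cont zero_le_two (int_cpow hs zero_le_two) h1
  refine h2.congr_fun (fun v _ => ?_) measurableSet_Ioc
  simp only [gw]
  ring

theorem norm_gw {H : ℝ → ℝ} (hH : IsH H) {s : ℂ} (hs : Nr s) {v : ℝ} (hv : 0 < v) :
    ‖gw H s v‖ ≤ v ^ (-(9 / 16) : ℝ) + 1 := by
  unfold gw
  rw [norm_mul, Complex.norm_real, Real.norm_eq_abs, Complex.norm_cpow_eq_rpow_re_of_pos hv,
    Complex.neg_re]
  have h1 := abs_H hH hv
  have h2 : v ^ (-s.re) ≤ v ^ (-(9 / 16) : ℝ) + 1 := by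
    obtain ⟨h3, h4⟩ := re_bounds hs
    rcases le_or_gt v 1 with h5 | h5
    · have h6 : v ^ (-s.re) ≤ v ^ (-(9 / 16) : ℝ) :=
        Real.rpow_le_rpow_of_exponent_ge hv h5 (by linarith)
      linarith
    · have h6 : v ^ (-s.re) ≤ 1 := Real.rpow_le_one_of_one_le_of_nonpos h5.le (by linarith)
      have h7 : 0 ≤ v ^ (-(9 / 16) : ℝ) := Real.rpow_nonneg hv.le _
      linarith
  have h3 : |1 - v ^ (1 / 2 : ℝ) * H v| * v ^ (-s.re) ≤ 1 * v ^ (-s.re) :=
    mul_le_mul_of_nonneg_right h1 (Real.rpow_nonneg hv.le _)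
  linarith

theorem int_bound : IntegrableOn (fun v : ℝ => v ^ (-(9 / 16) : ℝ) + 1) (Set.Ioc 0 2) := by
  have h1 : IntegrableOn (fun v : ℝ => v ^ (-(9 / 16) : ℝ)) (Set.Ioc 0 2) := by
    rw [← intervalIntegrable_iff_integrableOn_Ioc_of_le zero_le_two]
    exact intervalIntegral.intervalIntegrable_rpow' (by norm_num)
  have h2 : IntegrableOn (fun _ : ℝ => (1 : ℝ)) (Set.Ioc 0 2) := by
    simp [integrableOn_const_iff]
  exact h1.add h2

theorem Jx_eq (G H : ℝ → ℝ) (s : ℂ) :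
    Jx G H s = fun t => -(Real.pi : ℂ) * Fg (gw H s) (Gs G s) t := by
  funext t
  unfold Jx Fg gw
  rw [neg_mul]

/-- the two integrals are equal -/
theorem Jc_eq {G H : ℝ → ℝ} (hG : IsG G) (hH : IsH H) {s : ℂ} (hs : Nr s) {t : ℝ} (ht : 0 < t) :
    Jc G H s t = Jx G H s t := by
  have h1 := int_all hs (smooth_Gs hG s).continuous (by norm_num : (0 : ℝ) < 6) (high_Gs hG s) ht
  have h2 := mean_Gs hG hs ht
  have h3 : IntegrableOn (fun u => gw H s u * Gs G s (u * t)) (Set.Ioc 0 2) :=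
    int_cont zero_le_two (int_gw hH hs) (cont_mul (smooth_Gs hG s).continuous t)
  have h4 : ∀ u ∈ Set.Ioi (0 : ℝ) \ Set.Ioc 0 2, gw H s u * Gs G s (u * t) = 0 := by
    intro u hu
    have h5 : 2 < u := by
      by_contra h6
      exact hu.2 ⟨hu.1, not_lt.1 h6⟩
    have h6 : u ^ (1 / 2 : ℝ) * u ^ (-(1 / 2) : ℝ) = 1 := by
      rw [← Real.rpow_add (by linarith)]
      norm_num
    unfold gw
    rw [hH.high u h5.le, h6, sub_self, Complex.ofReal_zero, zero_mul, zero_mul]
  have h5 : IntegrableOn (fun u => gw H s u * Gs G s (u * t)) (Set.Ioi 0) :=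
    h3.of_forall_sdiff_eq_zero measurableSet_Ioi h4
  have h6 : ∫ u in Set.Ioi (0 : ℝ), gw H s u * Gs G s (u * t) = Fg (gw H s) (Gs G s) t :=
    setIntegral_eq_of_subset_of_forall_sdiff_eq_zero measurableSet_Ioi (fun u hu => hu.1) h4
  have h7 : ∫ u in Set.Ioi (0 : ℝ), Hs H s u * Gs G s (u * t) = -Fg (gw H s) (Gs G s) t := by
    have h8 : ∀ u ∈ Set.Ioi (0 : ℝ), Hs H s u * Gs G s (u * t) =
        (u : ℂ) ^ (-s) * Gs G s (u * t) - gw H s u * Gs G s (u * t) := by
      intro u hu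
      have hu0 : 0 < u := hu
      have huc : (u : ℂ) ≠ 0 := by exact_mod_cast hu0.ne'
      have h9 : (u : ℂ) ^ (1 / 2 - s) = ((u ^ (1 / 2 : ℝ) : ℝ) : ℂ) * (u : ℂ) ^ (-s) := by
        rw [Complex.ofReal_cpow hu0.le, ← Complex.cpow_add _ _ huc]
        congr 1
        push_cast
        ring
      unfold Hs gw
      rw [h9]
      push_cast
      ring
    rw [setIntegral_congr_fun measurableSet_Ioi h8, integral_sub h1 h5, h2, h6, zero_sub]
  rw [Jx_eq]
  unfold Jc
  rw [h7]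
  ring

theorem pf_JIC (h1 : T_GSC) (_h2 : T_HSC) : T_JIC := by
  intro G H hG hH
  refine ⟨fun s hs => ⟨?_, ?_, fun t ht => Jc_eq hG hH hs ht⟩, ?_⟩
  · rw [Jx_eq]
    exact contDiff_const.mul (smooth _ _ (int_gw hH hs) (smooth_Gs hG s))
  · intro t ht
    have ht0 : 0 < t := by linarith
    rw [← Jc_eq hG hH hs ht0]
    unfold Jc
    have h1 : ∫ u in Set.Ioi (0 : ℝ), Hs H s u * Gs G s (u * t) = 0 := by
      rw [setIntegral_congr_fun measurableSet_Ioi (g := fun _ => (0 : ℂ)) ?_]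
      · simp
      · intro u hu
        have hu0 : 0 < u := hu
        simp only
        by_cases h2 : u ≤ 1 / 2
        · unfold Hs
          rw [hH.low u h2, Complex.ofReal_zero, zero_mul, zero_mul]
        · rw [high_Gs hG s (u * t) ?_, mul_zero]
          have h3 : 1 / 2 < u := not_le.1 h2
          nlinarith
    rw [h1, mul_zero]
  · intro k
    obtain ⟨C, hC, hb⟩ := (h1 G hG).2 k
    refine ⟨Real.pi * (2 ^ k * C * ∫ v in Set.Ioc (0 : ℝ) 2, (v ^ (-(9 / 16) : ℝ) + 1)), ?_, ?_⟩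
    · have h3 : 0 ≤ ∫ v in Set.Ioc (0 : ℝ) 2, (v ^ (-(9 / 16) : ℝ) + 1) :=
        setIntegral_nonneg measurableSet_Ioc fun v hv =>
          add_nonneg (Real.rpow_nonneg hv.1.le _) zero_le_one
      have := Real.pi_pos
      positivity
    · intro s hs t
      have e1 : iteratedDeriv k (Jx G H s) t =
          -(Real.pi : ℂ) * Fg (fun u => gw H s u * (u : ℂ) ^ k) (iteratedDeriv k (Gs G s)) t := by
        rw [Jx_eq, iteratedDeriv_const_mul_field, it_Fg k _ _ (int_gw hH hs) (smooth_Gs hG s)]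
      rw [e1, norm_mul, norm_neg, Complex.norm_real, Real.norm_of_nonneg Real.pi_pos.le]
      refine mul_le_mul_of_nonneg_left ?_ Real.pi_pos.le
      unfold Fg
      rw [← integral_const_mul]
      refine norm_integral_le_of_norm_le (int_bound.const_mul _) ?_
      rw [ae_restrict_iff' measurableSet_Ioc]
      refine Filter.Eventually.of_forall fun u hu => ?_
      rw [norm_mul, norm_mul, norm_pow, Complex.norm_real, Real.norm_of_nonneg hu.1.le]
      have h3 := norm_gw hH hs hu.1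
      have h4 : u ^ k ≤ 2 ^ k := pow_le_pow_left₀ hu.1.le hu.2 k
      have h5 := hb s hs (u * t)
      have h6 : 0 ≤ u ^ (-(9 / 16) : ℝ) + 1 := add_nonneg (Real.rpow_nonneg hu.1.le _) zero_le_one
      calc ‖gw H s u‖ * u ^ k * ‖iteratedDeriv k (Gs G s) (u * t)‖ ≤
          (u ^ (-(9 / 16) : ℝ) + 1) * 2 ^ k * C := by
            refine mul_le_mul (mul_le_mul h3 h4 (pow_nonneg hu.1.le _) h6) h5 (norm_nonneg _) ?_
            positivity
        _ = 2 ^ k * C * (u ^ (-(9 / 16) : ℝ) + 1) := by ring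

end

end Pool.Agent.H67.HC
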